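import Pool.Agent.H73.GWQ.Stmts
import Pool.Agent.H55.GWP.WSA

/-! # Board `gwq`, row P2F: counting in a fibre -/

set_option autoImplicit false

open Classical

namespace GWQ

namespace P2FAux

theorem ofn_nat (K : ℕ) (L : List ℕ) (h : ℕ) (hl : L.length = h) (hL : ∀ x ∈ L, x ≤ K) :
    ∃ f : Fin h → Fin (K + 1), List.ofFn (fun i => ((f i : Fin (K + 1)) : ℕ)) = L := by
  subst hl
  refine ⟨fun i => ⟨L.get i, Nat.lt_succ_of_le (hL _ (List.get_mem L i))⟩, ?_⟩
  exact List.ofFn_get L

theorem ofn_gen {α : Type*} (L : List α) (h : ℕ) (hl : L.length = h) :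
    ∃ f : Fin h → α, List.ofFn f = L := by
  subst hl
  exact ⟨L.get, List.ofFn_get L⟩

/-- lists of length `h` with entries at most `K` -/
noncomputable def LN (K h : ℕ) : Finset (List ℕ) :=
  (Finset.univ : Finset (Fin h → Fin (K + 1))).image
    (fun f => List.ofFn (fun i => ((f i : Fin (K + 1)) : ℕ)))

theorem LN_card (K h : ℕ) : (LN K h).card ≤ (K + 1) ^ h := by
  refine Finset.card_image_le.trans ?_
  rw [Finset.card_univ, Fintype.card_fun, Fintype.card_fin, Fintype.card_fin]

/-- lists of length `r` -/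
noncomputable def LG (ι : Type*) [Fintype ι] (r : ℕ) : Finset (List ι) :=
  (Finset.univ : Finset (Fin r → ι)).image (fun f => List.ofFn f)

theorem LG_card (ι : Type*) [Fintype ι] (r : ℕ) : (LG ι r).card ≤ Fintype.card ι ^ r := by
  refine Finset.card_image_le.trans ?_
  rw [Finset.card_univ, Fintype.card_fun, Fintype.card_fin]

theorem mem_LN {K h : ℕ} {L : List ℕ} (hl : L.length = h) (hL : ∀ x ∈ L, x ≤ K) : L ∈ LN K h := by
  unfold LN
  rw [Finset.mem_image]
  obtain ⟨f, hf⟩ := ofn_nat K L h hl hL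
  exact ⟨f, Finset.mem_univ _, hf⟩

theorem mem_LG {ι : Type*} [Fintype ι] {r : ℕ} {L : List ι} (hl : L.length = r) :
    L ∈ LG ι r := by
  unfold LG
  rw [Finset.mem_image]
  obtain ⟨f, hf⟩ := ofn_gen L r hl
  exact ⟨f, Finset.mem_univ _, hf⟩

section qm

variable {G V : Type*} [Group G] (D : QM G V)

theorem d_one (g h : G) : D.d g (g * h) = D.nm h := by
  have := D.inv g 1 h
  rwa [mul_one] at this

theorem nm_mul (g h : G) : D.nm (g * h) ≤ D.nm g + D.nm h := by
  have h1 := D.tri 1 g (g * h)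
  rw [d_one] at h1
  exact h1

theorem nm_le (g z : G) : D.nm z ≤ D.nm g + D.d g z := D.tri 1 g z

theorem nm_inv (g : G) : D.nm g⁻¹ = D.nm g := by
  have h1 := D.inv g 1 g⁻¹
  rw [mul_one, mul_inv_cancel, D.comm] at h1
  exact h1.symm

theorem nm_back (h g : G) : D.nm g ≤ D.nm (h * g) + D.nm h := by
  have h1 := nm_mul D h⁻¹ (h * g)
  rw [inv_mul_cancel_left, nm_inv] at h1
  omega

theorem d_shift (h g u : G) : D.d g (h⁻¹ * u) = D.d (h * g) u := by
  have h1 := D.inv h g (h⁻¹ * u)
  rw [mul_inv_cancel_left] at h1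
  exact h1.symm

end qm

section code

variable {ι G V : Type*} [Fintype ι] [Group G] (C : QCode ι G V)

theorem offs_len (w : ℕ → G) (F : List (ι × List ι)) (b : List ι) :
    (offs C w F b).length = F.length := by
  induction F with
  | nil => rfl
  | cons f F ih => simp only [offs, List.length_cons, ih]

theorem offs_le (w : ℕ → G) (F : List (ι × List ι)) (b : List ι) :
    ∀ x ∈ offs C w F b, x ≤ 2 * C.Λ' := by
  induction F with
  | nil => intro x hx; simp [offs] at hx
  | cons f F ih =>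
    intro x hx
    simp only [offs, List.mem_cons] at hx
    rcases hx with rfl | hx
    · have h1 := nm_mul C.toQM (W C w (GWT.full F b)) (C.c f.1)
      have h2 : C.nm (C.c f.1) ≤ C.Λ' := C.hi f.1
      omega
    · exact ih x hx

theorem Ok_drop (w : ℕ → G) (P F : List (ι × List ι)) (b : List ι) (h : Ok C w (P ++ F) b) :
    Ok C w F b := by
  induction P with
  | nil => exact h
  | cons p P ih => exact ih h.2.2

/-- the point `m c_s ^ i` of the first frame of a stack -/
noncomputable def pt (w : ℕ → G) (b : List ι) : List (ι × List ι) → ℕ → G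
  | [], _ => 1
  | f :: Q, i => W C w (GWT.full Q b) * C.c f.1 ^ i

theorem geo (h3 : GLQStmt C) (h4 : GSQStmt C) (w : ℕ → G) (P Q : List (ι × List ι))
    (f : ι × List ι) (b : List ι) (R E : ℕ) (hE : R + 40 * C.K + 2 * C.Λ' + 2 ≤ E)
    (hOk : Ok C w (P ++ f :: Q) b) (hQ : Q.length = E) (hP : E ≤ P.length) :
    ∀ i ∈ ({1, 2} : Set ℕ),
      C.nm (W C w (GWT.full Q b) * C.c f.1 ^ i) +
        C.d (W C w (GWT.full Q b) * C.c f.1 ^ i) (W C w (GWT.full (P ++ f :: Q) b)) ≤
        C.nm (W C w (GWT.full (P ++ f :: Q) b)) + 19 * C.K ∧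
      R + 21 * C.K < C.nm (W C w (GWT.full Q b) * C.c f.1 ^ i) ∧
      R + 21 * C.K <
        C.d (W C w (GWT.full Q b) * C.c f.1 ^ i) (W C w (GWT.full (P ++ f :: Q) b)) := by
  obtain ⟨g1, g2, g3, g4⟩ := h3 w P Q f b hOk
  obtain ⟨o1, o2, -⟩ := Ok_drop C w P (f :: Q) b hOk
  have g5 := h4 _ _ _ o1 o2
  generalize hz : W C w (GWT.full (P ++ f :: Q) b) = z at *
  generalize hm : W C w (GWT.full Q b) = m at *
  generalize hv : tl C w f.2 (GWT.full Q b).length = v at *
  have hlo : C.Λ ≤ C.nm (C.c f.1) := C.lo f.1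
  have hhi : C.nm (C.c f.1) ≤ C.Λ' := C.hi f.1
  have hbig := C.big
  have hK := C.K_pos
  have a1 : m * C.c f.1 ^ 5 * v = m * C.c f.1 ^ 2 * (C.c f.1 * (C.c f.1 * (C.c f.1 * v))) := by
    simp only [pow_succ, pow_zero, one_mul, mul_assoc]
  have a2 := nm_mul C.toQM (m * C.c f.1 ^ 2) (C.c f.1 * (C.c f.1 * (C.c f.1 * v)))
  have a3 := nm_mul C.toQM (C.c f.1) (C.c f.1 * (C.c f.1 * v))
  have a4 := nm_mul C.toQM (C.c f.1) (C.c f.1 * v)
  rw [a1] at g5
  have a5 := nm_mul C.toQM (m * C.c f.1) (C.c f.1)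
  have a6 : m * C.c f.1 * C.c f.1 = m * C.c f.1 ^ 2 := by rw [pow_two, mul_assoc]
  rw [a6] at a5
  have a7 := nm_le C.toQM (m * C.c f.1) z
  have a8 := nm_le C.toQM (m * C.c f.1 ^ 2) z
  rintro i (rfl | rfl)
  · rw [pow_one]
    refine ⟨by omega, by omega, by omega⟩
  · refine ⟨by omega, by omega, by omega⟩

theorem split (L : List (ι × List ι)) (n E : ℕ) (hL : L.length = n) (hn : 2 * E + 1 ≤ n) :
    ∃ P f Q, L = P ++ f :: Q ∧ L.drop (n - (E + 1)) = f :: Q ∧ Q.length = E ∧ E ≤ P.length := by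
  have h1 : (L.drop (n - (E + 1))).length = E + 1 := by
    rw [List.length_drop, hL]; omega
  obtain ⟨f, Q, hfQ⟩ : ∃ f Q, L.drop (n - (E + 1)) = f :: Q := by
    cases h : L.drop (n - (E + 1)) with
    | nil => rw [h] at h1; simp at h1
    | cons f Q => exact ⟨f, Q, rfl⟩
  refine ⟨L.take (n - (E + 1)), f, Q, ?_, hfQ, ?_, ?_⟩
  · rw [← hfQ, List.take_append_drop]
  · rw [hfQ] at h1
    simpa using h1
  · rw [List.length_take, hL]; omega

theorem pair_ext (F F' : List (ι × List ι)) (h1 : F.map Prod.fst = F'.map Prod.fst)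
    (h2 : F.map Prod.snd = F'.map Prod.snd) : F = F' := by
  induction F generalizing F' with
  | nil =>
    cases F' with
    | nil => rfl
    | cons f F' => simp at h1
  | cons f F ih =>
    cases F' with
    | nil => simp at h1
    | cons f' F' =>
      simp only [List.map_cons, List.cons.injEq] at h1 h2
      rw [ih F' h1.2 h2.2, Prod.ext h1.1 h2.1]

/-- the finite set of the rigidity elements -/
noncomputable def Rig : Finset G := Finset.univ.biUnion (fun s => (C.rig s).toFinset)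

/-- the words to be counted -/
def SS (w : ℕ → G) (n R : ℕ) (u : G) (D : List (List ι) × List ι) : Set (List ι) :=
  {l | l.length = n ∧ (GWT.mask (St C w l) = D ∧
    ∃ h : G, C.nm h ≤ R ∧ C.d (h * W C w l) u ≤ R)}

theorem small (h5 : INQStmt C) (w : ℕ → G) (n R : ℕ) (u : G) (D : List (List ι) × List ι) :
    (SS C w n R u D).ncard ≤ Fintype.card ι ^ D.1.length := by
  refine le_trans ?_ (LG_card ι D.1.length)
  rw [← Set.ncard_coe_finset]
  refine Set.ncard_le_ncard_of_injOn (fun l : List ι => (St C w l).1.map Prod.fst) ?_ ?_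
    (Finset.finite_toSet _)
  · rintro l ⟨_, hm, _⟩
    refine mem_LG ?_
    rw [← hm]
    simp [GWT.mask]
  · rintro l ⟨_, hm, _⟩ l' ⟨_, hm', _⟩ he
    have hmm : GWT.mask (St C w l) = GWT.mask (St C w l') := hm.trans hm'.symm
    simp only [GWT.mask, Prod.mk.injEq] at hmm
    have hF := pair_ext _ _ he hmm.1
    rw [← (h5 w l).1, ← (h5 w l').1, hF, hmm.2]

theorem large (h1 : RGQStmt C) (h2 : TUQStmt C) (h3 : GLQStmt C) (h4 : GSQStmt C)
    (h5 : INQStmt C) (w : ℕ → G) (n R E : ℕ) (u : G) (D : List (List ι) × List ι)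
    (hE : R + 40 * C.K + 2 * C.Λ' + 2 ≤ E) (hn : 2 * E + 1 ≤ D.1.length) :
    (SS C w n R u D).ncard ≤ (2 * C.Λ' + 1) ^ D.1.length *
      (Fintype.card ι ^ E * (Fintype.card ι ^ (E + 1) * ((2 * R + 1) * ((2 * R + 1) *
        (Rig C).card)))) := by
  obtain ⟨hh, hhs⟩ : ∃ hh : List ι → G, ∀ l ∈ SS C w n R u D,
      C.nm (hh l) ≤ R ∧ C.d (hh l * W C w l) u ≤ R := by
    refine ⟨fun l => if h : ∃ h : G, C.nm h ≤ R ∧ C.d (h * W C w l) u ≤ R then h.choose else 1,
      ?_⟩
    rintro l ⟨_, _, h⟩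
    simp only [dif_pos h]
    exact h.choose_spec
  have hlen : ∀ l ∈ SS C w n R u D, (St C w l).1.length = D.1.length := by
    rintro l ⟨_, hm, _⟩
    rw [← hm]
    simp [GWT.mask]
  set j : ℕ := D.1.length - (E + 1) with hj
  -- the point of a word
  let q : List ι → ℕ → G := fun l i => pt C w D.2 ((St C w l).1.drop j) i
  let a : List ι → ℕ → ℕ := fun l i => C.nm (hh l * q l i) + R - C.nm (q l i)
  let d0 : List ι → List ℕ × List ι × List ι × ℕ × ℕ := fun l =>
    (offs C w (St C w l).1 (St C w l).2, ((St C w l).1.map Prod.fst).take E,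
      ((St C w l).1.map Prod.fst).drop j, a l 1, a l 2)
  let ref : List ℕ × List ι × List ι × ℕ × ℕ → List ι := fun x =>
    if h : ∃ l ∈ SS C w n R u D, d0 l = x then h.choose else []
  have href : ∀ l ∈ SS C w n R u D, ref (d0 l) ∈ SS C w n R u D ∧ d0 (ref (d0 l)) = d0 l := by
    intro l hl
    have h : ∃ l' ∈ SS C w n R u D, d0 l' = d0 l := ⟨l, hl, rfl⟩
    simp only [ref, dif_pos h]
    exact h.choose_spec
  -- frames
  have hfr : ∀ l ∈ SS C w n R u D, (St C w l).2 = D.2 ∧ (St C w l).1.map Prod.snd = D.1 := by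
    rintro l ⟨_, hm, _⟩
    rw [← hm]
    exact ⟨rfl, rfl⟩
  have hgeo : ∀ l ∈ SS C w n R u D, ∀ i ∈ ({1, 2} : Set ℕ),
      C.nm (q l i) + C.d (q l i) (W C w l) ≤ C.nm (W C w l) + 19 * C.K ∧
      R + 21 * C.K < C.nm (q l i) ∧ R + 21 * C.K < C.d (q l i) (W C w l) := by
    intro l hl i hi
    obtain ⟨P, f, Q, e1, e2, e3, e4⟩ := split (St C w l).1 D.1.length E (hlen l hl) hn
    have hq : q l i = W C w (GWT.full Q D.2) * C.c f.1 ^ i := by
      simp only [q]
      rw [hj, e2]
      rfl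
    have hfull := (h5 w l).1
    have hok := (h5 w l).2
    rw [e1, (hfr l hl).1] at hfull hok
    have := geo C h3 h4 w P Q f D.2 R E hE hok e3 e4 i hi
    rw [hfull] at this
    rw [hq]
    exact this
  have hdrop : ∀ l ∈ SS C w n R u D, ∀ l' ∈ SS C w n R u D, d0 l = d0 l' →
      (St C w l).1.drop j = (St C w l').1.drop j := by
    intro l hl l' hl' he
    simp only [d0, Prod.mk.injEq] at he
    refine pair_ext _ _ ?_ ?_
    · rw [List.map_drop, List.map_drop]
      exact he.2.2.1
    · rw [List.map_drop, List.map_drop, (hfr l hl).2, (hfr l' hl').2]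
  have hqq : ∀ l ∈ SS C w n R u D, ∀ l' ∈ SS C w n R u D, d0 l = d0 l' → ∀ i, q l i = q l' i := by
    intro l hl l' hl' he i
    simp only [q]
    rw [hdrop l hl l' hl' he]
  -- rigidity
  have hrig : ∀ l ∈ SS C w n R u D, ∀ l' ∈ SS C w n R u D, d0 l = d0 l' →
      (q l 1)⁻¹ * (hh l)⁻¹ * hh l' * q l 1 ∈ Rig C := by
    intro l hl l' hl' he
    obtain ⟨P, f, Q, e1, e2, e3, e4⟩ := split (St C w l).1 D.1.length E (hlen l hl) hn
    have hq : ∀ i, q l i = W C w (GWT.full Q D.2) * C.c f.1 ^ i := by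
      intro i
      simp only [q]
      rw [hj, e2]
      rfl
    have hq' : ∀ i, q l' i = W C w (GWT.full Q D.2) * C.c f.1 ^ i := by
      intro i
      rw [← hqq l hl l' hl' he i, hq]
    have hA := hhs l hl
    have hA' := hhs l' hl'
    have key := h1 (W C w (GWT.full Q D.2)) (hh l) (hh l') (W C w l) (W C w l') u f.1 R hA.1 hA'.1
      hA.2 hA'.2 (by
        intro i hi
        have g1 := hgeo l hl i hi
        have g2 := hgeo l' hl' i hi
        rw [hq] at g1
        rw [hq'] at g2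
        refine ⟨g1.1, g2.1, g1.2.1, g1.2.2, g2.2.2, ?_⟩
        have he2 : a l i = a l' i := by
          simp only [d0, Prod.mk.injEq] at he
          rcases hi with rfl | rfl
          · exact he.2.2.2.1
          · exact he.2.2.2.2
        simp only [a] at he2
        rw [hq, hq'] at he2
        have b1 := nm_back C.toQM (hh l) (W C w (GWT.full Q D.2) * C.c f.1 ^ i)
        have b2 := nm_back C.toQM (hh l') (W C w (GWT.full Q D.2) * C.c f.1 ^ i)
        have b3 := hA.1
        have b4 := hA'.1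
        omega)
    rw [hq, pow_one]
    unfold Rig
    rw [Finset.mem_biUnion]
    refine ⟨f.1, Finset.mem_univ _, ?_⟩
    rw [Set.Finite.mem_toFinset]
    exact key
  -- the injection
  let Φ : List ι → (List ℕ × List ι × List ι × ℕ × ℕ) × G := fun l =>
    (d0 l, (q l 1)⁻¹ * (hh (ref (d0 l)))⁻¹ * hh l * q l 1)
  let T : Finset ((List ℕ × List ι × List ι × ℕ × ℕ) × G) :=
    (LN (2 * C.Λ') D.1.length ×ˢ (LG ι E ×ˢ (LG ι (E + 1) ×ˢ
      (Finset.range (2 * R + 1) ×ˢ Finset.range (2 * R + 1))))) ×ˢ Rig C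
  have hT : T.card ≤ (2 * C.Λ' + 1) ^ D.1.length *
      (Fintype.card ι ^ E * (Fintype.card ι ^ (E + 1) * ((2 * R + 1) * ((2 * R + 1) *
        (Rig C).card)))) := by
    simp only [T, Finset.card_product, Finset.card_range]
    have c1 := LN_card (2 * C.Λ') D.1.length
    have c2 := LG_card ι E
    have c3 := LG_card ι (E + 1)
    calc (LN (2 * C.Λ') D.1.length).card * ((LG ι E).card * ((LG ι (E + 1)).card *
          ((2 * R + 1) * (2 * R + 1)))) * (Rig C).card
        ≤ (2 * C.Λ' + 1) ^ D.1.length * (Fintype.card ι ^ E * (Fintype.card ι ^ (E + 1) *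
          ((2 * R + 1) * (2 * R + 1)))) * (Rig C).card := by gcongr
      _ = _ := by ring
  refine le_trans ?_ hT
  rw [← Set.ncard_coe_finset]
  refine Set.ncard_le_ncard_of_injOn Φ ?_ ?_ (Finset.finite_toSet _)
  · intro l hl
    have hal : ∀ i, a l i ∈ Finset.range (2 * R + 1) := by
      intro i
      rw [Finset.mem_range]
      have b1 := nm_mul C.toQM (hh l) (q l i)
      have b2 := (hhs l hl).1
      simp only [a]
      omega
    have hr := href l hl
    have hrg := hrig (ref (d0 l)) hr.1 l hl hr.2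
    rw [hqq (ref (d0 l)) hr.1 l hl hr.2 1] at hrg
    simp only [T, Φ, Finset.coe_product, Set.mem_prod, Finset.mem_coe]
    refine ⟨⟨?_, ?_, ?_, hal 1, hal 2⟩, hrg⟩
    · exact mem_LN ((offs_len C w _ _).trans (hlen l hl)) (offs_le C w _ _)
    · refine mem_LG ?_
      rw [List.length_take, List.length_map, hlen l hl]
      omega
    · refine mem_LG ?_
      rw [List.length_drop, List.length_map, hlen l hl]
      omega
  · intro l hl l' hl' he
    simp only [Φ, Prod.mk.injEq] at he
    obtain ⟨hd, hk⟩ := he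
    have hh2 : hh l = hh l' := by
      rw [← hd, ← hqq l hl l' hl' hd 1] at hk
      have := mul_right_cancel hk
      exact mul_left_cancel this
    obtain ⟨i1, i2⟩ := h5 w l
    obtain ⟨j1, j2⟩ := h5 w l'
    have hb : (St C w l).2 = (St C w l').2 := (hfr l hl).1.trans (hfr l' hl').1.symm
    have hs : (St C w l).1.map Prod.snd = (St C w l').1.map Prod.snd :=
      (hfr l hl).2.trans (hfr l' hl').2.symm
    have hd2 := hd
    simp only [d0, Prod.mk.injEq] at hd2
    obtain ⟨k1, k2, -⟩ := hd2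
    have hF : (St C w l).1 = (St C w l').1 := by
      refine h2 w (St C w l).1 (St C w l').1 (St C w l').2 ((hh l)⁻¹ * u) R E (by omega) ?_ j2 hs
        ?_ ?_ ?_ k2
      · rw [← hb]; exact i2
      · rw [← hb, i1, d_shift]
        exact (hhs l hl).2
      · rw [j1, d_shift, hh2]
        exact (hhs l' hl').2
      · rw [← hb, k1, hb]
    rw [← i1, ← j1, hF, hb]

end code

end P2FAux

section code

variable {ι G V : Type*} [Fintype ι] [Group G] (C : QCode ι G V)

open P2FAux in
theorem P2F (h1 : RGQStmt C) (h2 : TUQStmt C) (h3 : GLQStmt C) (h4 : GSQStmt C)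
    (h5 : INQStmt C) : P2FStmt C := by
  intro R
  obtain ⟨E, hE⟩ : ∃ E, E = R + 40 * C.K + 2 * C.Λ' + 2 := ⟨_, rfl⟩
  have hN : 1 ≤ Fintype.card ι := by
    rw [C.card]
    have := C.M_big
    exact Nat.one_le_pow _ _ (by omega)
  have hM : 1 ≤ C.M := by
    have := C.M_big
    omega
  refine ⟨((Fintype.card ι ^ (2 * E + 1) * ((2 * R + 1) * ((2 * R + 1) *
    ((Rig C).card + 1))) : ℕ) : ℝ), ?_, ?_⟩
  · have : 0 < Fintype.card ι ^ (2 * E + 1) * ((2 * R + 1) * ((2 * R + 1) *
        ((Rig C).card + 1))) := by positivity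
    exact_mod_cast this
  · intro w n u D
    refine (le_of_eq (GWP.wsum_congr n _ (fun l : List ι =>
      @ite ℝ (GWT.mask (St C w l) = D ∧ ∃ h : G, C.nm h ≤ R ∧ C.d (h * W C w l) u ≤ R)
        (Classical.propDecidable _) 1 0) ?_)).trans ?_
    · intro l _
      by_cases a : GWT.mask (St C w l) = D
      · by_cases b : ∃ h : G, C.nm h ≤ R ∧ C.d (h * W C w l) u ≤ R
        · simp [a, b]
        · simp [b]
      · simp [a]
    refine (le_of_eq (GWP.wsum_ncard n
      (fun l : List ι => GWT.mask (St C w l) = D ∧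
        ∃ h : G, C.nm h ≤ R ∧ C.d (h * W C w l) u ≤ R)).symm).trans ?_
    have key : (SS C w n R u D).ncard ≤ Fintype.card ι ^ (2 * E + 1) * ((2 * R + 1) *
        ((2 * R + 1) * ((Rig C).card + 1))) * C.M ^ D.1.length := by
      rcases Nat.lt_or_ge D.1.length (2 * E + 1) with hn | hn
      · refine (small C h5 w n R u D).trans ?_
        have c1 : Fintype.card ι ^ D.1.length ≤ Fintype.card ι ^ (2 * E + 1) :=
          Nat.pow_le_pow_right hN (by omega)
        have c2 : 1 ≤ (2 * R + 1) * ((2 * R + 1) * ((Rig C).card + 1)) :=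
          Nat.mul_pos (by omega) (Nat.mul_pos (by omega) (by omega))
        have c3 : 1 ≤ C.M ^ D.1.length := Nat.one_le_pow _ _ hM
        calc Fintype.card ι ^ D.1.length ≤ Fintype.card ι ^ (2 * E + 1) := c1
          _ = Fintype.card ι ^ (2 * E + 1) * 1 * 1 := by ring
          _ ≤ _ := Nat.mul_le_mul (Nat.mul_le_mul_left _ c2) c3
      · refine (large C h1 h2 h3 h4 h5 w n R E u D (by omega) hn).trans ?_
        have c1 : (2 * C.Λ' + 1) ^ D.1.length ≤ C.M ^ D.1.length :=
          Nat.pow_le_pow_left C.offs _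
        have c2 : Fintype.card ι ^ E * Fintype.card ι ^ (E + 1) =
            Fintype.card ι ^ (2 * E + 1) := by
          rw [← pow_add]
          congr 1
          omega
        calc (2 * C.Λ' + 1) ^ D.1.length * (Fintype.card ι ^ E * (Fintype.card ι ^ (E + 1) *
              ((2 * R + 1) * ((2 * R + 1) * (Rig C).card))))
            ≤ C.M ^ D.1.length * (Fintype.card ι ^ E * (Fintype.card ι ^ (E + 1) *
              ((2 * R + 1) * ((2 * R + 1) * ((Rig C).card + 1))))) := by gcongr; omega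
          _ = (Fintype.card ι ^ E * Fintype.card ι ^ (E + 1)) * ((2 * R + 1) *
              ((2 * R + 1) * ((Rig C).card + 1))) * C.M ^ D.1.length := by ring
          _ = _ := by rw [c2]
    have key2 : ((SS C w n R u D).ncard : ℝ) ≤ ((Fintype.card ι ^ (2 * E + 1) * ((2 * R + 1) *
        ((2 * R + 1) * ((Rig C).card + 1))) * C.M ^ D.1.length : ℕ) : ℝ) := by
      exact_mod_cast key
    refine key2.trans (le_of_eq ?_)
    rw [Nat.cast_mul, Nat.cast_pow]

end code

end GWQ
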